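import Mathlib
import Pool.Agent.Helper691.Pattern6
import Pool.Agent.Helper691.Pattern6Asymp

/-!
# MP_e9ef01_co: the asymptotics of `log n_t`

For every `t ≥ 1` the Ramsey number `n_t` exists, and
`log₂ n_t = (1/2 + o(1)) * C(t, ⌊t/2⌋)` as `t → ∞`.

Lower bound: a binary tree construction with an antichain of subsets of `{1, …, t-1}` gives
`n_t > 2 ^ C(t-1, ⌊(t-1)/2⌋)`.
Upper bound: `n_t ≤ 2 ^ (t+3) * M(t)`, where `M(t)` is the number of maximal antichains of the
Boolean lattice of rank `t`, and `log₂ M(t) ≤ (1/2 + o(1)) * C(t, ⌊t/2⌋)`.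
-/

namespace Pool.Agent.Results.MP_e9ef01_co.LogAsymptotic

open Filter Topology Pool.Agent.Helper691.Pattern6 Pool.Agent.Helper691.Pattern6Asymp

/-- The Ramsey number `n_t` exists for every `t`, and `log₂ n_t / C(t, ⌊t/2⌋) → 1/2`. -/
theorem result :
    (∀ t : ℕ, 1 ≤ t → (GoodSet t).Nonempty) ∧
      Tendsto (fun t : ℕ => Real.logb 2 (nt t) / ((t.choose (t / 2) : ℕ) : ℝ)) atTop
        (𝓝 (1 / 2)) :=
  ⟨fun t _ => good_nonempty t, main_limit⟩

end Pool.Agent.Results.MP_e9ef01_co.LogAsymptotic
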