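import Mathlib
import Pool.Agent.Helper691.Pattern6
import Pool.Agent.Helper691.Pattern6Lower
import Pool.Agent.Helper691.Pattern6Upper

/-!
# MP_e9ef01_co: the order of growth of `log n_t`

For every `t ≥ 1`,
`2 ^ C(t-1, ⌊(t-1)/2⌋) < n_t ≤ 2 * 3 ^ C(t, ⌊t/2⌋) + 2`,
and `C(t, ⌊t/2⌋) ≤ 2 * C(t-1, ⌊(t-1)/2⌋)`. So `log n_t` has the order of `C(t, ⌊t/2⌋)`, that is
of `2 ^ t / √t`: the growth is doubly exponential.
-/

namespace Pool.Agent.Results.MP_e9ef01_co.LogOrder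

open Pool.Agent.Helper691.Pattern6 Pool.Agent.Helper691.Pattern6Lower
  Pool.Agent.Helper691.Pattern6Upper

theorem choose_half_le (t : ℕ) (ht : 1 ≤ t) :
    t.choose (t / 2) ≤ 2 * (t - 1).choose ((t - 1) / 2) := by
  obtain ⟨m, rfl⟩ : ∃ m, t = m + 1 := ⟨t - 1, by omega⟩
  simp only [Nat.add_sub_cancel]
  rcases Nat.eq_zero_or_pos ((m + 1) / 2) with h | h
  · rw [h]
    have : 0 < m.choose (m / 2) := Nat.choose_pos (by omega)
    simp
    omega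
  · obtain ⟨j, hj⟩ : ∃ j, (m + 1) / 2 = j + 1 := ⟨(m + 1) / 2 - 1, by omega⟩
    rw [hj, Nat.choose_succ_succ']
    have h1 : m.choose j ≤ m.choose (m / 2) := Nat.choose_le_middle j m
    have h2 : m.choose (j + 1) ≤ m.choose (m / 2) := Nat.choose_le_middle (j + 1) m
    omega

/-- For every `t ≥ 1` the Ramsey number `n_t` is well defined,
`2 ^ C(t-1, ⌊(t-1)/2⌋) < n_t ≤ 2 * 3 ^ C(t, ⌊t/2⌋) + 2`, and the exponents satisfy
`C(t, ⌊t/2⌋) ≤ 2 * C(t-1, ⌊(t-1)/2⌋)`. -/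
theorem result (t : ℕ) (ht : 1 ≤ t) :
    (GoodSet t).Nonempty ∧
      2 ^ ((t - 1).choose ((t - 1) / 2)) < nt t ∧
      nt t ≤ 2 * 3 ^ (t.choose (t / 2)) + 2 ∧
      t.choose (t / 2) ≤ 2 * (t - 1).choose ((t - 1) / 2) := by
  have hne : (GoodSet t).Nonempty := ⟨_, upper_mem t⟩
  exact ⟨hne, lower_mem t ht _ (Nat.sInf_mem hne), upper t, choose_half_le t ht⟩

end Pool.Agent.Results.MP_e9ef01_co.LogOrder
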